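import Mathlib

set_option autoImplicit false

/-!
The bound of van Emde Boas and Kruyswijk (and Meshulam) for the Davenport constant, for the group of the
units modulo `L`: among more than `m log φ(L)` integers prime to `L` some have the product `1` modulo `L`,
when `m` is an exponent of the group.
-/

namespace Pool.Agent.U843.AGP

open Finset

/-- Characters can be killed one after the other. -/
theorem kill (L m : ℕ) [NeZero L] (hm : 0 < m) (hexp : ∀ u : (ZMod L)ˣ, u ^ m = 1)
    (P : Finset ℕ) (hP : ∀ p ∈ P, Nat.Coprime p L) (X : Finset (DirichletCharacter ℂ L)) :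
    ∃ a : ℕ → ℂ, (∀ p, a p ≠ 0) ∧
      ((X.filter (fun χ => ∀ p ∈ P, χ (p : ZMod L) ≠ a p)).card : ℝ) ≤
        X.card * (1 - 1 / (m : ℝ)) ^ P.card := by
  induction P using Finset.induction_on with
  | empty =>
    refine ⟨fun _ => 1, fun _ => one_ne_zero, ?_⟩
    simp
  | insert q P hq ih =>
    obtain ⟨a, ha0, ha⟩ := ih (fun p hp => hP p (mem_insert_of_mem hp))
    obtain ⟨X', hX'⟩ : ∃ X', X' = X.filter (fun χ => ∀ p ∈ P, χ (p : ZMod L) ≠ a p) := ⟨_, rfl⟩
    rw [← hX'] at ha
    have hm' : (0 : ℝ) < m := by exact_mod_cast hm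
    have hroots : (Polynomial.nthRootsFinset m (1 : ℂ)).card = m :=
      (Complex.isPrimitiveRoot_exp m hm.ne').card_nthRootsFinset
    have hne : (Polynomial.nthRootsFinset m (1 : ℂ)).Nonempty := by
      rw [← Finset.card_pos, hroots]; exact hm
    have hmaps : ∀ χ ∈ X', χ (q : ZMod L) ∈ Polynomial.nthRootsFinset m (1 : ℂ) := by
      intro χ _
      rw [Polynomial.mem_nthRootsFinset hm, ← map_pow]
      have hu : IsUnit (q : ZMod L) := (ZMod.isUnit_iff_coprime q L).2 (hP q (mem_insert_self q P))
      have h1 := hexp hu.unit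
      have h2 : ((q : ZMod L)) ^ m = 1 := by
        have := congrArg (fun u : (ZMod L)ˣ => (u : ZMod L)) h1
        simpa using this
      rw [h2, map_one]
    obtain ⟨v, hv, hvc⟩ := Finset.exists_le_card_fiber_of_nsmul_le_card_of_maps_to
      (b := (X'.card : ℝ) / m) hmaps hne (by
        rw [hroots, nsmul_eq_mul, mul_div_cancel₀ _ hm'.ne'])
    have hv0 : v ≠ 0 := by
      rintro rfl
      rw [Polynomial.mem_nthRootsFinset hm] at hv
      rw [zero_pow hm.ne'] at hv
      exact zero_ne_one hv
    refine ⟨Function.update a q v, ?_, ?_⟩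
    · intro p
      by_cases h : p = q
      · subst h; simpa using hv0
      · rw [Function.update_of_ne h]; exact ha0 p
    · have hset : X.filter (fun χ => ∀ p ∈ insert q P, χ (p : ZMod L) ≠ Function.update a q v p) =
          X'.filter (fun χ => ¬ χ (q : ZMod L) = v) := by
        rw [hX', filter_filter]
        apply filter_congr
        intro χ _
        constructor
        · intro h
          refine ⟨fun p hp => ?_, ?_⟩
          · have h1 := h p (mem_insert_of_mem hp)
            rwa [Function.update_of_ne (by rintro rfl; exact hq hp)] at h1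
          · have h1 := h q (mem_insert_self q P)
            rwa [Function.update_self] at h1
        · rintro ⟨h1, h2⟩ p hp
          rw [mem_insert] at hp
          rcases hp with rfl | hp
          · rwa [Function.update_self]
          · rw [Function.update_of_ne (by rintro rfl; exact hq hp)]
            exact h1 p hp
      rw [hset, card_insert_of_notMem hq, pow_succ]
      have h3 : ((X'.filter (fun χ => ¬ χ (q : ZMod L) = v)).card : ℝ) =
          X'.card - ((X'.filter (fun χ => χ (q : ZMod L) = v)).card : ℝ) := by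
        rw [← Finset.card_filter_add_card_filter_not (s := X') (fun χ => χ (q : ZMod L) = v)]
        push_cast
        ring
      rw [h3]
      have h4 : (X'.card : ℝ) - ((X'.filter (fun χ => χ (q : ZMod L) = v)).card : ℝ) ≤
          X'.card * (1 - 1 / (m : ℝ)) := by
        have : (X'.card : ℝ) * (1 - 1 / (m : ℝ)) = X'.card - X'.card / m := by ring
        rw [this]
        linarith
      have h5 : (0 : ℝ) ≤ 1 - 1 / (m : ℝ) := by
        rw [sub_nonneg, div_le_one hm']
        exact_mod_cast hm
      calc _ ≤ _ := h4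
        _ ≤ (X.card * (1 - 1 / (m : ℝ)) ^ P.card) * (1 - 1 / (m : ℝ)) :=
            mul_le_mul_of_nonneg_right ha h5
        _ = _ := by ring

/-- Zero-sum subsets. -/
theorem dav (L m : ℕ) [NeZero L] (hm : 0 < m) (hexp : ∀ u : (ZMod L)ˣ, u ^ m = 1)
    (P : Finset ℕ) (hP : ∀ p ∈ P, Nat.Coprime p L)
    (hcard : (L.totient : ℝ) * (1 - 1 / (m : ℝ)) ^ P.card < 1) :
    ∃ S ⊆ P, S.Nonempty ∧ ((∏ p ∈ S, p : ℕ) : ZMod L) = 1 := by
  by_contra hcon
  push Not at hcon
  obtain ⟨a, ha0, ha⟩ := kill L m hm hexp P hP univ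
  have hcu : ((univ : Finset (DirichletCharacter ℂ L)).card : ℝ) = L.totient := by
    rw [Finset.card_univ, ← Nat.card_eq_fintype_card,
      DirichletCharacter.card_eq_totient_of_hasEnoughRootsOfUnity]
  rw [hcu] at ha
  have h0 : (univ.filter (fun χ : DirichletCharacter ℂ L => ∀ p ∈ P, χ (p : ZMod L) ≠ a p)).card = 0 := by
    have h1 := ha.trans_lt hcard
    have h2 : (univ.filter (fun χ : DirichletCharacter ℂ L => ∀ p ∈ P, χ (p : ZMod L) ≠ a p)).card < 1 := by
      exact_mod_cast h1
    omega
  have hprod : ∀ χ : DirichletCharacter ℂ L, ∏ p ∈ P, (χ (p : ZMod L) + (- a p)) = 0 := by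
    intro χ
    rw [Finset.card_eq_zero, Finset.filter_eq_empty_iff] at h0
    have h1 := h0 (mem_univ χ)
    push Not at h1
    obtain ⟨p, hp, hpa⟩ := h1
    exact Finset.prod_eq_zero hp (by rw [hpa]; ring)
  have hsum : ∑ χ : DirichletCharacter ℂ L, ∏ p ∈ P, (χ (p : ZMod L) + (- a p)) = 0 :=
    Finset.sum_eq_zero fun χ _ => hprod χ
  simp only [Finset.prod_add] at hsum
  rw [Finset.sum_comm] at hsum
  have hterm : ∀ S ∈ P.powerset, ∑ χ : DirichletCharacter ℂ L,
      ((∏ p ∈ S, χ (p : ZMod L)) * ∏ p ∈ P \ S, (- a p)) =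
      if S = ∅ then (L.totient : ℂ) * ∏ p ∈ P, (- a p) else 0 := by
    intro S hS
    rw [mem_powerset] at hS
    rw [← Finset.sum_mul]
    have h1 : ∀ χ : DirichletCharacter ℂ L, ∏ p ∈ S, χ (p : ZMod L) =
        χ ((∏ p ∈ S, p : ℕ) : ZMod L) := by
      intro χ
      rw [Nat.cast_prod, map_prod]
    simp only [h1]
    rw [DirichletCharacter.sum_characters_eq]
    split_ifs with h2 h3 h3
    · subst h3
      simp
    · exact absurd h2 (hcon S hS (Finset.nonempty_iff_ne_empty.2 h3))
    · subst h3
      simp at h2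
    · simp
  rw [Finset.sum_congr rfl hterm] at hsum
  rw [Finset.sum_ite_eq' P.powerset ∅, if_pos (empty_mem_powerset P)] at hsum
  have hφ : (L.totient : ℂ) ≠ 0 := by
    have := Nat.totient_pos.2 (NeZero.pos L)
    exact_mod_cast this.ne'
  have h4 : ∏ p ∈ P, (- a p) ≠ 0 := Finset.prod_ne_zero_iff.2 fun p _ => neg_ne_zero.2 (ha0 p)
  exact (mul_ne_zero hφ h4) hsum

end Pool.Agent.U843.AGP
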