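import Mathlib

set_option autoImplicit false

/-!
From a lower bound of Linnik type for the primes in residue classes to many primes `d k + 1` with the same
small `k` (the method of Prachar).
-/

namespace Pool.Agent.U843.AGP

open Finset

theorem harm (n : ℕ) : ∑ k ∈ Icc 1 n, (1 : ℝ) / k ≤ 1 + Real.log n := by
  have h := harmonic_le_one_add_log n
  rw [harmonic_eq_sum_Icc] at h
  push_cast at h
  simpa [one_div] using h

theorem harm_mult (n w : ℕ) (hw : 0 < w) :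
    ∑ k ∈ (Icc 1 n).filter (fun k => w ∣ k), (1 : ℝ) / k ≤ (1 : ℝ) / w * (1 + Real.log n) := by
  have h1 : ∑ k ∈ (Icc 1 n).filter (fun k => w ∣ k), (1 : ℝ) / k ≤
      ∑ j ∈ Icc 1 n, (1 : ℝ) / ((w * j : ℕ) : ℝ) := by
    have hsub : (Icc 1 n).filter (fun k => w ∣ k) ⊆ (Icc 1 n).image (fun j => w * j) := by
      intro k hk
      rw [mem_filter, mem_Icc] at hk
      obtain ⟨⟨h1, h2⟩, j, rfl⟩ := hk
      rw [mem_image]
      refine ⟨j, ?_, rfl⟩
      rw [mem_Icc]
      have hj : 0 < j := Nat.pos_of_ne_zero (by rintro rfl; simp at h1)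
      refine ⟨hj, ?_⟩
      nlinarith
    calc _ ≤ ∑ k ∈ (Icc 1 n).image (fun j => w * j), (1 : ℝ) / k :=
          sum_le_sum_of_subset_of_nonneg hsub fun _ _ _ => by positivity
      _ = ∑ j ∈ Icc 1 n, (1 : ℝ) / ((w * j : ℕ) : ℝ) := by
          rw [sum_image]
          intro a _ b _ hab
          exact Nat.eq_of_mul_eq_mul_left hw hab
  refine h1.trans ?_
  have h2 : ∑ j ∈ Icc 1 n, (1 : ℝ) / ((w * j : ℕ) : ℝ) = (1 : ℝ) / w * ∑ j ∈ Icc 1 n, (1 : ℝ) / j := by
    rw [mul_sum]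
    apply sum_congr rfl
    intro j _
    push_cast
    rw [div_mul_div_comm, one_mul]
  rw [h2]
  exact mul_le_mul_of_nonneg_left (harm n) (by positivity)

theorem sum_biUnion_le' {ι : Type*} (W : Finset ι) (t : ι → Finset ℕ) (f : ℕ → ℝ) (hf : ∀ k, 0 ≤ f k) :
    ∑ k ∈ W.biUnion t, f k ≤ ∑ w ∈ W, ∑ k ∈ t w, f k := by
  classical
  induction W using Finset.induction_on with
  | empty => simp
  | insert w W hw ih =>
    rw [biUnion_insert, sum_insert hw]
    have h1 := sum_union_inter (s₁ := t w) (s₂ := W.biUnion t) (f := f)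
    have h2 : 0 ≤ ∑ k ∈ t w ∩ W.biUnion t, f k := sum_nonneg fun k _ => hf k
    linarith

theorem pigeon (z K q₁ : ℕ) (c : ℝ) (hz : 2 ≤ z) (hc : 0 < c)
    (hpage : ∀ q b : ℕ, 0 < q → q ^ 16 ≤ z → ¬ q₁ ∣ q → b.Coprime q →
      c / (q.totient : ℝ) ≤
        ∑ p ∈ (Ioc z (z ^ K)).filter (fun p => p.Prime ∧ p ≡ b [MOD q]), (1 : ℝ) / p)
    (D W : Finset ℕ) (hDne : D.Nonempty) (hD : ∀ d ∈ D, 0 < d ∧ d ^ 16 ≤ z ∧ ¬ q₁ ∣ d)
    (hW : ∀ w ∈ W, 0 < w)
    (hWs : (∑ w ∈ W, (1 : ℝ) / w) * (1 + K * Real.log z) ≤ c / 2) :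
    ∃ k, 1 ≤ k ∧ k ≤ z ^ K ∧ (∀ w ∈ W, ¬ w ∣ k) ∧
      c / 2 * D.card ≤ (1 + K * Real.log z) *
        ((D.filter (fun d => (d * k + 1).Prime ∧ z < d * k + 1 ∧ d * k + 1 ≤ z ^ K)).card : ℝ) := by
  have hlogz : 0 ≤ Real.log z := Real.log_natCast_nonneg z
  have hlogK : Real.log ((z ^ K : ℕ) : ℝ) = K * Real.log z := by
    push_cast
    rw [Real.log_pow]
  have hT : 0 < 1 + (K : ℝ) * Real.log z := by positivity
  -- the sum over all `k`
  have h1 : ∀ d ∈ D, c ≤ ∑ k ∈ (Icc 1 (z ^ K)).filter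
      (fun k => (d * k + 1).Prime ∧ z < d * k + 1 ∧ d * k + 1 ≤ z ^ K), (1 : ℝ) / k := by
    intro d hd
    obtain ⟨hd0, hd16, hdq⟩ := hD d hd
    have hd0' : (0 : ℝ) < d := by exact_mod_cast hd0
    have hp := hpage d 1 hd0 hd16 hdq (Nat.coprime_one_left d)
    have hφ : (0 : ℝ) < (d.totient : ℝ) := by exact_mod_cast Nat.totient_pos.2 hd0
    have h2 : c / d ≤ c / (d.totient : ℝ) := by
      apply div_le_div_of_nonneg_left hc.le hφ
      exact_mod_cast Nat.totient_le d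
    have h3 : ∑ p ∈ (Ioc z (z ^ K)).filter (fun p => p.Prime ∧ p ≡ 1 [MOD d]), (1 : ℝ) / p ≤
        ∑ k ∈ (Icc 1 (z ^ K)).filter
          (fun k => (d * k + 1).Prime ∧ z < d * k + 1 ∧ d * k + 1 ≤ z ^ K), (1 : ℝ) / (d * k) := by
      have hsub : (Ioc z (z ^ K)).filter (fun p => p.Prime ∧ p ≡ 1 [MOD d]) ⊆
          ((Icc 1 (z ^ K)).filter
            (fun k => (d * k + 1).Prime ∧ z < d * k + 1 ∧ d * k + 1 ≤ z ^ K)).image
              (fun k => d * k + 1) := by
        intro p hp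
        rw [mem_filter, mem_Ioc] at hp
        obtain ⟨⟨e1, e2⟩, e3, e4⟩ := hp
        have e5 : d ∣ p - 1 := (Nat.modEq_iff_dvd' (by omega)).1 e4.symm
        obtain ⟨k, hk⟩ := e5
        have e6 : p = d * k + 1 := by omega
        rw [mem_image]
        refine ⟨k, ?_, e6.symm⟩
        rw [mem_filter, mem_Icc]
        have hk0 : 0 < k := Nat.pos_of_ne_zero (by rintro rfl; omega)
        refine ⟨⟨hk0, ?_⟩, ?_, ?_, ?_⟩
        · have : k ≤ d * k := Nat.le_mul_of_pos_left k hd0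
          omega
        · rw [← e6]; exact e3
        · omega
        · omega
      calc _ ≤ ∑ p ∈ ((Icc 1 (z ^ K)).filter
            (fun k => (d * k + 1).Prime ∧ z < d * k + 1 ∧ d * k + 1 ≤ z ^ K)).image
              (fun k => d * k + 1), (1 : ℝ) / p :=
            sum_le_sum_of_subset_of_nonneg hsub fun _ _ _ => by positivity
        _ = ∑ k ∈ (Icc 1 (z ^ K)).filter
            (fun k => (d * k + 1).Prime ∧ z < d * k + 1 ∧ d * k + 1 ≤ z ^ K),
              (1 : ℝ) / ((d * k + 1 : ℕ) : ℝ) := by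
            rw [sum_image]
            intro a _ b _ hab
            simp only [Nat.add_right_cancel_iff] at hab
            exact Nat.eq_of_mul_eq_mul_left hd0 hab
        _ ≤ _ := by
            apply sum_le_sum
            intro k hk
            rw [mem_filter, mem_Icc] at hk
            have hk0 : (0 : ℝ) < k := by exact_mod_cast hk.1.1
            push_cast
            exact one_div_le_one_div_of_le (by positivity) (by linarith)
    have h4 : ∑ k ∈ (Icc 1 (z ^ K)).filter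
          (fun k => (d * k + 1).Prime ∧ z < d * k + 1 ∧ d * k + 1 ≤ z ^ K), (1 : ℝ) / (d * k) =
        (1 / d) * ∑ k ∈ (Icc 1 (z ^ K)).filter
          (fun k => (d * k + 1).Prime ∧ z < d * k + 1 ∧ d * k + 1 ≤ z ^ K), (1 : ℝ) / k := by
      rw [mul_sum]
      apply sum_congr rfl
      intro k _
      rw [div_mul_div_comm, one_mul]
    rw [h4] at h3
    have h5 := (h2.trans hp).trans h3
    rw [div_eq_mul_one_div, mul_comm c] at h5
    exact le_of_mul_le_mul_left h5 (by positivity)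
  -- remove the multiples of the elements of `W`
  have h2 : ∀ d ∈ D, c / 2 ≤ ∑ k ∈ ((Icc 1 (z ^ K)).filter (fun k => ∀ w ∈ W, ¬ w ∣ k)).filter
      (fun k => (d * k + 1).Prime ∧ z < d * k + 1 ∧ d * k + 1 ≤ z ^ K), (1 : ℝ) / k := by
    intro d hd
    have h3 := h1 d hd
    have h4 : ∑ k ∈ (Icc 1 (z ^ K)).filter
        (fun k => (d * k + 1).Prime ∧ z < d * k + 1 ∧ d * k + 1 ≤ z ^ K), (1 : ℝ) / k ≤
        ∑ k ∈ ((Icc 1 (z ^ K)).filter (fun k => ∀ w ∈ W, ¬ w ∣ k)).filter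
          (fun k => (d * k + 1).Prime ∧ z < d * k + 1 ∧ d * k + 1 ≤ z ^ K), (1 : ℝ) / k +
        ∑ w ∈ W, ∑ k ∈ (Icc 1 (z ^ K)).filter (fun k => w ∣ k), (1 : ℝ) / k := by
      have hsub : (Icc 1 (z ^ K)).filter
          (fun k => (d * k + 1).Prime ∧ z < d * k + 1 ∧ d * k + 1 ≤ z ^ K) ⊆
          (((Icc 1 (z ^ K)).filter (fun k => ∀ w ∈ W, ¬ w ∣ k)).filter
            (fun k => (d * k + 1).Prime ∧ z < d * k + 1 ∧ d * k + 1 ≤ z ^ K)) ∪
          W.biUnion (fun w => (Icc 1 (z ^ K)).filter (fun k => w ∣ k)) := by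
        intro k hk
        rw [mem_filter] at hk
        rw [mem_union, mem_filter, mem_filter, mem_biUnion]
        by_cases h : ∀ w ∈ W, ¬ w ∣ k
        · left; exact ⟨⟨hk.1, h⟩, hk.2⟩
        · right
          push Not at h
          obtain ⟨w, hw, hwk⟩ := h
          exact ⟨w, hw, by rw [mem_filter]; exact ⟨hk.1, hwk⟩⟩
      calc _ ≤ _ := sum_le_sum_of_subset_of_nonneg hsub fun _ _ _ => by positivity
        _ ≤ _ + ∑ k ∈ W.biUnion (fun w => (Icc 1 (z ^ K)).filter (fun k => w ∣ k)), (1 : ℝ) / k := by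
            rw [← sum_union_inter]
            have : 0 ≤ ∑ k ∈ ((((Icc 1 (z ^ K)).filter (fun k => ∀ w ∈ W, ¬ w ∣ k)).filter
            (fun k => (d * k + 1).Prime ∧ z < d * k + 1 ∧ d * k + 1 ≤ z ^ K)) ∩
              W.biUnion (fun w => (Icc 1 (z ^ K)).filter (fun k => w ∣ k))), (1 : ℝ) / k :=
              sum_nonneg fun _ _ => by positivity
            linarith
        _ ≤ _ := by
            gcongr
            exact sum_biUnion_le' _ _ _ fun k => by positivity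
    have h5 : ∑ w ∈ W, ∑ k ∈ (Icc 1 (z ^ K)).filter (fun k => w ∣ k), (1 : ℝ) / k ≤ c / 2 := by
      calc _ ≤ ∑ w ∈ W, (1 : ℝ) / w * (1 + Real.log ((z ^ K : ℕ) : ℝ)) :=
            sum_le_sum fun w hw => harm_mult _ _ (hW w hw)
        _ = (∑ w ∈ W, (1 : ℝ) / w) * (1 + K * Real.log z) := by rw [sum_mul, hlogK]
        _ ≤ _ := hWs
    linarith
  by_contra hcon
  push Not at hcon
  have hDc : (0 : ℝ) < D.card := by exact_mod_cast hDne.card_pos
  obtain ⟨A, hA⟩ : ∃ A, A = (Icc 1 (z ^ K)).filter (fun k => ∀ w ∈ W, ¬ w ∣ k) := ⟨_, rfl⟩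
  rw [← hA] at h2
  have h3 : c / 2 * D.card ≤ ∑ k ∈ A, (1 : ℝ) / k *
      ((D.filter (fun d => (d * k + 1).Prime ∧ z < d * k + 1 ∧ d * k + 1 ≤ z ^ K)).card : ℝ) := by
    calc c / 2 * D.card = ∑ _d ∈ D, c / 2 := by rw [sum_const, nsmul_eq_mul, mul_comm]
      _ ≤ ∑ d ∈ D, ∑ k ∈ A.filter
            (fun k => (d * k + 1).Prime ∧ z < d * k + 1 ∧ d * k + 1 ≤ z ^ K), (1 : ℝ) / k :=
          sum_le_sum fun d hd => h2 d hd
      _ = ∑ d ∈ D, ∑ k ∈ A, if ((d * k + 1).Prime ∧ z < d * k + 1 ∧ d * k + 1 ≤ z ^ K) then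
            (1 : ℝ) / k else 0 := by
          apply sum_congr rfl
          intro d _
          rw [sum_filter]
      _ = ∑ k ∈ A, ∑ d ∈ D, if ((d * k + 1).Prime ∧ z < d * k + 1 ∧ d * k + 1 ≤ z ^ K) then
            (1 : ℝ) / k else 0 := sum_comm
      _ = _ := by
          apply sum_congr rfl
          intro k _
          rw [← sum_filter, sum_const, nsmul_eq_mul, mul_comm]
  have hAne : A.Nonempty := by
    rw [nonempty_iff_ne_empty]
    rintro rfl
    rw [sum_empty] at h3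
    have : 0 < c / 2 * (D.card : ℝ) := by positivity
    linarith
  have h4 : ∑ k ∈ A, (1 : ℝ) / k *
      ((D.filter (fun d => (d * k + 1).Prime ∧ z < d * k + 1 ∧ d * k + 1 ≤ z ^ K)).card : ℝ) <
      ∑ k ∈ A, (1 : ℝ) / k * (c / 2 * D.card / (1 + K * Real.log z)) := by
    apply sum_lt_sum_of_nonempty hAne
    intro k hk
    rw [hA, mem_filter, mem_Icc] at hk
    have h5 := hcon k hk.1.1 hk.1.2 hk.2
    have hk0 : (0 : ℝ) < k := by exact_mod_cast hk.1.1
    apply mul_lt_mul_of_pos_left _ (by positivity)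
    rw [lt_div_iff₀ hT]
    linarith
  have h5 : ∑ k ∈ A, (1 : ℝ) / k ≤ 1 + K * Real.log z := by
    rw [← hlogK]
    refine le_trans ?_ (harm _)
    apply sum_le_sum_of_subset_of_nonneg
    · rw [hA]; exact filter_subset _ _
    · intros; positivity
  have h6 : ∑ k ∈ A, (1 : ℝ) / k * (c / 2 * D.card / (1 + K * Real.log z)) ≤ c / 2 * D.card := by
    rw [← sum_mul]
    calc _ ≤ (1 + K * Real.log z) * (c / 2 * D.card / (1 + K * Real.log z)) := by
          apply mul_le_mul_of_nonneg_right h5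
          positivity
      _ = _ := by field_simp
  linarith

end Pool.Agent.U843.AGP
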