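import Mathlib
import Pool.Agent.U843.AGP.Pig

set_option autoImplicit false

/-!
Many primes `q` for which `q - 1` divides the same number.
-/

namespace Pool.Agent.U843.AGP

open Finset

/-- the Linnik type bound at `z`, away from one modulus -/
def PageAt (K : ℕ) (c : ℝ) (z : ℕ) : Prop := ∃ q₁ : ℕ, 2 ≤ q₁ ∧
  ∀ q b : ℕ, 0 < q → q ^ 16 ≤ z → ¬ q₁ ∣ q → b.Coprime q →
    c / (q.totient : ℝ) ≤
      ∑ p ∈ (Ioc z (z ^ K)).filter (fun p => p.Prime ∧ p ≡ b [MOD q]), (1 : ℝ) / p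

theorem triple (s : ℕ) : ∃ x y w : ℕ, x.Prime ∧ y.Prime ∧ w.Prime ∧ x ≠ y ∧ x ≠ w ∧ y ≠ w ∧
    x ≠ s ∧ y ≠ s ∧ w ≠ s ∧ x * y * w ≤ 105 := by
  by_cases h3 : s = 3
  · exact ⟨2, 5, 7, by norm_num, by norm_num, by norm_num, by norm_num, by norm_num, by norm_num,
      by omega, by omega, by omega, by norm_num⟩
  by_cases h5 : s = 5
  · exact ⟨2, 3, 7, by norm_num, by norm_num, by norm_num, by norm_num, by norm_num, by norm_num,
      by omega, by omega, by omega, by norm_num⟩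
  by_cases h7 : s = 7
  · exact ⟨2, 3, 5, by norm_num, by norm_num, by norm_num, by norm_num, by norm_num, by norm_num,
      by omega, by omega, by omega, by norm_num⟩
  exact ⟨3, 5, 7, by norm_num, by norm_num, by norm_num, by norm_num, by norm_num, by norm_num,
    by omega, by omega, by omega, by norm_num⟩

theorem pow_inj {x y w : ℕ} (hx : x.Prime) (hy : y.Prime) (hw : w.Prime) (hxy : x ≠ y) (hxw : x ≠ w)
    (hyw : y ≠ w) : Function.Injective (fun t : ℕ × ℕ × ℕ => x ^ t.1 * y ^ t.2.1 * w ^ t.2.2) := by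
  have key : ∀ t : ℕ × ℕ × ℕ, (x ^ t.1 * y ^ t.2.1 * w ^ t.2.2).factorization =
      Finsupp.single x t.1 + Finsupp.single y t.2.1 + Finsupp.single w t.2.2 := by
    intro t
    rw [Nat.factorization_mul (mul_ne_zero (pow_ne_zero _ hx.ne_zero) (pow_ne_zero _ hy.ne_zero))
      (pow_ne_zero _ hw.ne_zero), Nat.factorization_mul (pow_ne_zero _ hx.ne_zero)
      (pow_ne_zero _ hy.ne_zero), hx.factorization_pow, hy.factorization_pow, hw.factorization_pow]
  intro t t' h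
  have h1 := congrArg Nat.factorization h
  simp only [key] at h1
  have e1 := DFunLike.congr_fun h1 x
  have e2 := DFunLike.congr_fun h1 y
  have e3 := DFunLike.congr_fun h1 w
  simp [Finsupp.single_apply, hxy, hxy.symm, hxw, hxw.symm, hyw, hyw.symm] at e1 e2 e3
  ext <;> assumption

theorem stage1 (K z0 : ℕ) (c : ℝ) (hK : 1 ≤ K) (hc : 0 < c) (h : ∀ z, z0 ≤ z → PageAt K c z) (C : ℕ) :
    ∃ a0 : ℕ, 1 ≤ a0 ∧ ∀ a : ℕ, a0 ≤ a → ∃ (Λ : ℕ) (Q : Finset ℕ), 0 < Λ ∧ Λ ≤ (105 ^ (16 * a)) ^ (K + 1) ∧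
      (∀ q ∈ Q, q.Prime ∧ 105 ^ (16 * a) < q ∧ q ≤ (105 ^ (16 * a)) ^ K ∧ q - 1 ∣ Λ) ∧
      C * a ≤ Q.card := by
  obtain ⟨a1, ha1⟩ := exists_nat_ge (162 * K * C / c)
  refine ⟨max (max a1 z0) 1, le_max_right _ _, ?_⟩
  intro a ha
  simp only [max_le_iff] at ha
  obtain ⟨⟨ha1', haz⟩, ha0⟩ := ha
  obtain ⟨z, hzdef⟩ : ∃ z, z = 105 ^ (16 * a) := ⟨_, rfl⟩
  have hz0 : z0 ≤ z := by
    have : 16 * a < 105 ^ (16 * a) := Nat.lt_pow_self (by norm_num)
    rw [hzdef]; omega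
  have hz2 : 2 ≤ z := by
    have : 16 * a < 105 ^ (16 * a) := Nat.lt_pow_self (by norm_num)
    rw [hzdef]; omega
  obtain ⟨q₁, hq₁, hpage⟩ := h z hz0
  obtain ⟨x, y, w, hx, hy, hw, hxy, hxw, hyw, hxs, hys, hws, hxyw⟩ := triple (q₁.minFac)
  have hs : q₁.minFac.Prime := Nat.minFac_prime (by omega)
  obtain ⟨D, hDdef⟩ : ∃ D, D = ((range (a + 1)) ×ˢ ((range (a + 1)) ×ˢ (range (a + 1)))).image
    (fun t : ℕ × ℕ × ℕ => x ^ t.1 * y ^ t.2.1 * w ^ t.2.2) := ⟨_, rfl⟩
  have hDcard : D.card = (a + 1) ^ 3 := by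
    rw [hDdef, card_image_of_injective _ (pow_inj hx hy hw hxy hxw hyw), card_product, card_product,
      card_range]
    ring
  have hDdvd : ∀ d ∈ D, d ∣ (x * y * w) ^ a := by
    intro d hd
    rw [hDdef, mem_image] at hd
    obtain ⟨t, ht, rfl⟩ := hd
    simp only [mem_product, mem_range] at ht
    rw [mul_pow, mul_pow]
    exact Nat.mul_dvd_mul (Nat.mul_dvd_mul (pow_dvd_pow _ (by omega)) (pow_dvd_pow _ (by omega)))
      (pow_dvd_pow _ (by omega))
  have hpos : 0 < (x * y * w) ^ a := by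
    have := hx.pos; have := hy.pos; have := hw.pos
    positivity
  have hle : (x * y * w) ^ a ≤ 105 ^ a := Nat.pow_le_pow_left hxyw a
  have hD : ∀ d ∈ D, 0 < d ∧ d ^ 16 ≤ z ∧ ¬ q₁ ∣ d := by
    intro d hd
    have h1 := hDdvd d hd
    refine ⟨Nat.pos_of_dvd_of_pos h1 hpos, ?_, ?_⟩
    · have h2 : d ≤ 105 ^ a := (Nat.le_of_dvd hpos h1).trans hle
      calc d ^ 16 ≤ (105 ^ a) ^ 16 := Nat.pow_le_pow_left h2 16
        _ = z := by rw [hzdef, ← pow_mul, mul_comm a 16]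
    · intro h2
      have h3 : q₁.minFac ∣ (x * y * w) ^ a := (Nat.minFac_dvd q₁).trans (h2.trans h1)
      have h4 := hs.dvd_of_dvd_pow h3
      rcases (hs.dvd_mul).1 h4 with h5 | h5
      · rcases (hs.dvd_mul).1 h5 with h6 | h6
        · exact hxs ((Nat.prime_dvd_prime_iff_eq hs hx).1 h6).symm
        · exact hys ((Nat.prime_dvd_prime_iff_eq hs hy).1 h6).symm
      · exact hws ((Nat.prime_dvd_prime_iff_eq hs hw).1 h5).symm
  have hDne : D.Nonempty := by
    rw [← card_pos, hDcard]; positivity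
  obtain ⟨k, hk1, hkz, -, hk⟩ := pigeon z K q₁ c hz2 hc hpage D ∅ hDne hD (by simp) (by
    simp only [sum_empty, zero_mul]; positivity)
  refine ⟨k * (x * y * w) ^ a, (D.filter (fun d => (d * k + 1).Prime ∧ z < d * k + 1 ∧
    d * k + 1 ≤ z ^ K)).image (fun d => d * k + 1), by positivity, ?_, ?_, ?_⟩
  · rw [← hzdef, pow_succ]
    have h1 : 105 ^ a ≤ z := by
      rw [hzdef]
      exact Nat.pow_le_pow_right (by norm_num) (by omega)
    exact Nat.mul_le_mul hkz (hle.trans h1)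
  · intro q hq
    rw [mem_image] at hq
    obtain ⟨d, hd, rfl⟩ := hq
    rw [mem_filter] at hd
    obtain ⟨hd, e1, e2, e3⟩ := hd
    rw [← hzdef]
    refine ⟨e1, e2, e3, ?_⟩
    rw [Nat.add_sub_cancel, mul_comm]
    exact Nat.mul_dvd_mul_left k (hDdvd d hd)
  · have hinj : ((D.filter (fun d => (d * k + 1).Prime ∧ z < d * k + 1 ∧
        d * k + 1 ≤ z ^ K)).image (fun d => d * k + 1)).card =
        (D.filter (fun d => (d * k + 1).Prime ∧ z < d * k + 1 ∧ d * k + 1 ≤ z ^ K)).card := by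
      apply card_image_of_injective
      intro u v huv
      simp only [Nat.add_right_cancel_iff] at huv
      exact Nat.eq_of_mul_eq_mul_right hk1 huv
    rw [hinj]
    obtain ⟨N, hN⟩ : ∃ N, N = (D.filter (fun d => (d * k + 1).Prime ∧ z < d * k + 1 ∧
      d * k + 1 ≤ z ^ K)).card := ⟨_, rfl⟩
    rw [← hN] at hk ⊢
    rw [hDcard] at hk
    have hlog : Real.log z ≤ 80 * a := by
      rw [hzdef]
      push_cast
      rw [Real.log_pow]
      have h5 : Real.log 105 ≤ 5 := by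
        rw [Real.log_le_iff_le_exp (by norm_num)]
        have h6 : (2.7182818283 : ℝ) < Real.exp 1 := Real.exp_one_gt_d9
        have h7 : Real.exp 5 = (Real.exp 1) ^ 5 := by rw [← Real.exp_nat_mul]; norm_num
        rw [h7]
        calc (105 : ℝ) ≤ 2.7182818283 ^ 5 := by norm_num
          _ ≤ _ := pow_le_pow_left₀ (by norm_num) h6.le 5
      push_cast
      have ha' : (0 : ℝ) ≤ a := Nat.cast_nonneg a
      nlinarith
    have hK1 : (1 : ℝ) ≤ K := by exact_mod_cast hK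
    have ha1r : (1 : ℝ) ≤ a := by exact_mod_cast ha0
    have hN0 : (0 : ℝ) ≤ N := Nat.cast_nonneg N
    have h1 : c / 2 * ((a : ℝ) + 1) ^ 3 ≤ (81 * K * a) * N := by
      push_cast at hk
      refine hk.trans ?_
      apply mul_le_mul_of_nonneg_right _ hN0
      have : (K : ℝ) * Real.log z ≤ K * (80 * a) := mul_le_mul_of_nonneg_left hlog (by linarith)
      nlinarith
    have h2 : 162 * K * C ≤ c * a := by
      have h3 : (162 : ℝ) * K * C / c ≤ a := ha1.trans (by exact_mod_cast ha1')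
      rw [div_le_iff₀ hc] at h3
      linarith
    have h4 : (C : ℝ) * a ≤ N := by
      have hpos2 : (0 : ℝ) < 81 * K * a := by positivity
      apply le_of_mul_le_mul_left _ hpos2
      calc 81 * (K : ℝ) * a * (C * a) = (162 * K * C) / 2 * a ^ 2 := by ring
        _ ≤ (c * a) / 2 * a ^ 2 := by gcongr
        _ = c / 2 * a ^ 3 := by ring
        _ ≤ c / 2 * ((a : ℝ) + 1) ^ 3 := by gcongr; linarith
        _ ≤ _ := h1
    exact_mod_cast h4

end Pool.Agent.U843.AGP
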