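import Mathlib
import Pool.Agent.U843.AGP.St1
import Pool.Agent.U843.AGP.Dav

set_option autoImplicit false

/-!
Carmichael numbers with large prime factors, from a Linnik type bound (the method of Alford, Granville and
Pomerance).
-/

namespace Pool.Agent.U843.AGP

open Finset

theorem pow_modEq (S : Finset ℕ) (hS : ∀ q ∈ S, q.Prime) (x e : ℕ) (hx : x.Coprime (∏ q ∈ S, q))
    (he : ∀ q ∈ S, q - 1 ∣ e) : x ^ e ≡ 1 [MOD ∏ q ∈ S, q] := by
  rw [Nat.modEq_iff_dvd]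
  push_cast
  apply Finset.prod_dvd_of_coprime
  · intro p hp q hq hpq
    show IsCoprime (p : ℤ) (q : ℤ)
    rw [Nat.isCoprime_iff_coprime]
    exact (Nat.coprime_primes (hS p hp) (hS q hq)).2 hpq
  · intro q hq
    haveI : Fact q.Prime := ⟨hS q hq⟩
    obtain ⟨t, ht⟩ := he q hq
    have h1 : (x : ZMod q) ≠ 0 := by
      intro h
      rw [ZMod.natCast_eq_zero_iff] at h
      have h2 : q ∣ ∏ q ∈ S, q := Finset.dvd_prod_of_mem _ hq
      have h3 := Nat.dvd_gcd h h2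
      rw [hx] at h3
      exact (hS q hq).one_lt.ne' (Nat.dvd_one.1 h3)
    have h2 : ((1 - (x : ℤ) ^ e : ℤ) : ZMod q) = 0 := by
      push_cast
      rw [ht, pow_mul, ZMod.pow_card_sub_one_eq_one h1, one_pow, sub_self]
    exact (ZMod.intCast_zmod_eq_zero_iff_dvd _ q).1 h2

theorem exponent (Q : Finset ℕ) (hQ : ∀ q ∈ Q, q.Prime) (Λ : ℕ) (hΛ : ∀ q ∈ Q, q - 1 ∣ Λ)
    (x : (ZMod (∏ q ∈ Q, q))ˣ) : x ^ Λ = 1 := by
  have hne : ∏ q ∈ Q, q ≠ 0 := Finset.prod_ne_zero_iff.2 fun q hq => (hQ q hq).ne_zero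
  haveI : NeZero (∏ q ∈ Q, q) := ⟨hne⟩
  ext
  have h1 := pow_modEq Q hQ (x : ZMod (∏ q ∈ Q, q)).val Λ (ZMod.val_coe_unit_coprime x) hΛ
  have h2 := (ZMod.natCast_eq_natCast_iff _ _ _).2 h1
  push_cast at h2
  rw [ZMod.natCast_zmod_val] at h2
  simpa using h2

/-- an integer for which the false witnesses of Fermat are almost all residues -/
theorem count (S : Finset ℕ) (hS : ∀ p ∈ S, p.Prime) (z : ℕ) (hz : 0 < z) (hSz : ∀ p ∈ S, z < p)
    (n : ℕ) (hn : n = ∏ p ∈ S, p) (hK : ∀ p ∈ S, p - 1 ∣ n - 1) :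
    (n : ℝ) * (1 - S.card / z) ≤ (((range n).filter (fun a => a ^ (n - 1) ≡ 1 [MOD n])).card : ℝ) := by
  have h1 : (range n) ⊆ ((range n).filter (fun a => a ^ (n - 1) ≡ 1 [MOD n])) ∪
      S.biUnion (fun p => (range n).filter (fun a => p ∣ a)) := by
    intro a ha
    rw [mem_union, mem_filter, mem_biUnion]
    by_cases h : ∃ p ∈ S, p ∣ a
    · obtain ⟨p, hp, hpa⟩ := h
      exact Or.inr ⟨p, hp, mem_filter.2 ⟨ha, hpa⟩⟩
    · push Not at h
      left
      refine ⟨ha, ?_⟩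
      have hcop : a.Coprime (∏ p ∈ S, p) := by
        rw [Nat.coprime_prod_right_iff]
        intro p hp
        exact (((hS p hp).coprime_iff_not_dvd).2 (h p hp)).symm
      have h2 := pow_modEq S hS a (n - 1) hcop hK
      rwa [← hn] at h2
  have h2 := card_le_card h1
  rw [card_range] at h2
  have h3 : (S.biUnion (fun p => (range n).filter (fun a => p ∣ a))).card ≤
      ∑ p ∈ S, ((range n).filter (fun a => p ∣ a)).card := card_biUnion_le
  have h4 : ∀ p ∈ S, (((range n).filter (fun a => p ∣ a)).card : ℝ) ≤ n / z := by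
    intro p hp
    have hpn : p ∣ n := by rw [hn]; exact Finset.dvd_prod_of_mem _ hp
    obtain ⟨m, hm⟩ := hpn
    have hp0 : 0 < p := (hS p hp).pos
    have h5 : (range n).filter (fun a => p ∣ a) ⊆ (range m).image (fun j => p * j) := by
      intro a ha
      rw [mem_filter, mem_range] at ha
      obtain ⟨ha, j, rfl⟩ := ha
      rw [mem_image]
      refine ⟨j, ?_, rfl⟩
      rw [mem_range]
      rw [hm] at ha
      exact Nat.lt_of_mul_lt_mul_left ha
    have h6 := (card_le_card h5).trans card_image_le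
    rw [card_range] at h6
    have h7 : (((range n).filter (fun a => p ∣ a)).card : ℝ) ≤ m := by exact_mod_cast h6
    refine h7.trans ?_
    have hz' : (0 : ℝ) < z := by exact_mod_cast hz
    rw [le_div_iff₀ hz', hm]
    push_cast
    have : (z : ℝ) ≤ p := by exact_mod_cast (hSz p hp).le
    have hm0 : (0 : ℝ) ≤ m := Nat.cast_nonneg m
    nlinarith
  have h5 : (((S.biUnion (fun p => (range n).filter (fun a => p ∣ a))).card : ℕ) : ℝ) ≤
      S.card * (n / z) := by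
    calc (((S.biUnion (fun p => (range n).filter (fun a => p ∣ a))).card : ℕ) : ℝ) ≤
        ∑ p ∈ S, (((range n).filter (fun a => p ∣ a)).card : ℝ) := by exact_mod_cast h3
      _ ≤ ∑ _p ∈ S, ((n : ℝ) / z) := sum_le_sum h4
      _ = _ := by rw [sum_const, nsmul_eq_mul]
  have h6 : (n : ℝ) ≤ (((range n).filter (fun a => a ^ (n - 1) ≡ 1 [MOD n])).card : ℝ) +
      ((S.biUnion (fun p => (range n).filter (fun a => p ∣ a))).card : ℝ) := by
    exact_mod_cast h2.trans (card_union_le _ _)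
  have h7 : (n : ℝ) * (1 - S.card / z) = n - S.card * (n / z) := by ring
  rw [h7]
  linarith

/-- `log 105 ≤ 5` -/
theorem log105 : Real.log 105 ≤ 5 := by
  rw [Real.log_le_iff_le_exp (by norm_num)]
  have h6 : (2.7182818283 : ℝ) < Real.exp 1 := Real.exp_one_gt_d9
  have h7 : Real.exp 5 = (Real.exp 1) ^ 5 := by rw [← Real.exp_nat_mul]; norm_num
  rw [h7]
  calc (105 : ℝ) ≤ 2.7182818283 ^ 5 := by norm_num
    _ ≤ _ := pow_le_pow_left₀ (by norm_num) h6.le 5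

/-- the group theoretic part -/
theorem final (K : ℕ) (Q : Finset ℕ) (hQ : ∀ q ∈ Q, q.Prime) (Λ k z : ℕ) (hΛ0 : 0 < Λ)
    (hΛ : ∀ q ∈ Q, q - 1 ∣ Λ) (hz : 0 < z) (hQz : ∀ q ∈ Q, q ≤ z)
    (D : Finset ℕ) (hD : ∀ d ∈ D, ∃ T ⊆ Q, T ≠ Q ∧ d = ∏ q ∈ T, q)
    (hk : 1 ≤ k) (hkQ : ∀ q ∈ Q, ¬ q ∣ k) (B : ℕ) (hB : (∏ q ∈ Q, q : ℕ) ≤ Real.exp B)
    (hN : Λ * B + 1 ≤ (D.filter (fun d => (d * k + 1).Prime ∧ z < d * k + 1 ∧
      d * k + 1 ≤ z ^ K)).card) :
    ∃ n : ℕ, z < n ∧ ¬ n.Prime ∧ (n : ℝ) * (1 - (Λ * B + 1 : ℕ) / z) ≤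
      (((range n).filter (fun a => a ^ (n - 1) ≡ 1 [MOD n])).card : ℝ) := by
  obtain ⟨D', hD'sub, hD'card⟩ := Finset.exists_subset_card_eq hN
  obtain ⟨L, hL⟩ : ∃ L, L = ∏ q ∈ Q, q := ⟨_, rfl⟩
  have hLne : L ≠ 0 := by
    rw [hL]; exact Finset.prod_ne_zero_iff.2 fun q hq => (hQ q hq).ne_zero
  haveI : NeZero L := ⟨hLne⟩
  have hinj : Function.Injective (fun d : ℕ => d * k + 1) := by
    intro u v huv
    simp only [Nat.add_right_cancel_iff] at huv
    exact Nat.eq_of_mul_eq_mul_right hk huv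
  obtain ⟨P, hP⟩ : ∃ P, P = D'.image (fun d => d * k + 1) := ⟨_, rfl⟩
  have hPcard : P.card = Λ * B + 1 := by
    rw [hP, card_image_of_injective _ hinj, hD'card]
  have hPprop : ∀ p ∈ P, p.Prime ∧ z < p ∧ ∃ T ⊆ Q, T ≠ Q ∧ p = (∏ q ∈ T, q) * k + 1 := by
    intro p hp
    rw [hP, mem_image] at hp
    obtain ⟨d, hd, rfl⟩ := hp
    have h1 := hD'sub hd
    rw [mem_filter] at h1
    obtain ⟨T, hT, hT2, rfl⟩ := hD d h1.1
    exact ⟨h1.2.1, h1.2.2.1, T, hT, hT2, rfl⟩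
  have hPcop : ∀ p ∈ P, Nat.Coprime p L := by
    intro p hp
    obtain ⟨h1, h2, -⟩ := hPprop p hp
    rw [hL, Nat.coprime_prod_right_iff]
    intro q hq
    rw [Nat.coprime_primes h1 (hQ q hq)]
    have := hQz q hq
    omega
  have hexp : ∀ u : (ZMod L)ˣ, u ^ Λ = 1 := by
    subst hL
    exact exponent Q hQ Λ hΛ
  have hΛr : (0 : ℝ) < Λ := by exact_mod_cast hΛ0
  have hdav : (L.totient : ℝ) * (1 - 1 / (Λ : ℝ)) ^ P.card < 1 := by
    rw [hPcard]
    have h1 : (L.totient : ℝ) ≤ Real.exp B := by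
      refine le_trans ?_ hB
      rw [← hL]
      exact_mod_cast Nat.totient_le L
    have h2 : (0 : ℝ) ≤ 1 - 1 / (Λ : ℝ) := by
      rw [sub_nonneg, div_le_one hΛr]
      exact_mod_cast hΛ0
    have h3 : (1 - 1 / (Λ : ℝ)) ^ (Λ * B + 1) ≤ Real.exp (-(1 / (Λ : ℝ))) ^ (Λ * B + 1) := by
      apply pow_le_pow_left₀ h2
      have := Real.add_one_le_exp (-(1 / (Λ : ℝ)))
      linarith
    have h4 : Real.exp (-(1 / (Λ : ℝ))) ^ (Λ * B + 1) = Real.exp (-(B + 1 / (Λ : ℝ))) := by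
      rw [← Real.exp_nat_mul]
      congr 1
      push_cast
      field_simp
    calc (L.totient : ℝ) * (1 - 1 / (Λ : ℝ)) ^ (Λ * B + 1) ≤
        Real.exp B * Real.exp (-(B + 1 / (Λ : ℝ))) := by
          rw [← h4]
          exact mul_le_mul h1 h3 (pow_nonneg h2 _) (Real.exp_pos _).le
      _ = Real.exp (-(1 / (Λ : ℝ))) := by
          rw [← Real.exp_add]; congr 1; ring
      _ < 1 := by
          rw [Real.exp_lt_one_iff]
          have : 0 < 1 / (Λ : ℝ) := by positivity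
          linarith
  obtain ⟨S, hSP, hSne, hS1⟩ := dav L Λ hΛ0 hexp P hPcop hdav
  obtain ⟨n, hn⟩ : ∃ n, n = ∏ p ∈ S, p := ⟨_, rfl⟩
  rw [← hn] at hS1
  have hSprime : ∀ p ∈ S, p.Prime := fun p hp => (hPprop p (hSP hp)).1
  have hn0 : n ≠ 0 := by
    rw [hn]; exact Finset.prod_ne_zero_iff.2 fun p hp => (hSprime p hp).ne_zero
  have hmodL : n ≡ 1 [MOD L] := by
    rw [← ZMod.natCast_eq_natCast_iff]
    rw [hS1]; simp
  have hmodk : n ≡ 1 [MOD k] := by
    have : ∀ T : Finset ℕ, T ⊆ S → ∏ p ∈ T, p ≡ 1 [MOD k] := by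
      intro T
      induction T using Finset.induction_on with
      | empty => intro _; rw [prod_empty]
      | insert p T hp ih =>
        intro hT
        rw [prod_insert hp]
        have h1 := ih (fun x hx => hT (mem_insert_of_mem hx))
        obtain ⟨-, -, T', -, -, e⟩ := hPprop p (hSP (hT (mem_insert_self p T)))
        have h2 : p ≡ 1 [MOD k] := by
          rw [e]
          show ((∏ q ∈ T', q) * k + 1) % k = 1 % k
          rw [mul_comm, Nat.mul_add_mod]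
        exact h2.mul h1
    rw [hn]; exact this S (Finset.Subset.refl S)
  have hcop : Nat.Coprime k L := by
    rw [hL, Nat.coprime_prod_right_iff]
    intro q hq
    exact (((hQ q hq).coprime_iff_not_dvd).2 (hkQ q hq)).symm
  have hmod : n ≡ 1 [MOD k * L] := (Nat.modEq_and_modEq_iff_modEq_mul hcop).1 ⟨hmodk, hmodL⟩
  have hn1 : 1 ≤ n := Nat.pos_of_ne_zero hn0
  have hdvd : k * L ∣ n - 1 := (Nat.modEq_iff_dvd' hn1).1 hmod.symm
  have hKor : ∀ p ∈ S, p - 1 ∣ n - 1 := by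
    intro p hp
    obtain ⟨-, -, T, hT, -, e⟩ := hPprop p (hSP hp)
    refine dvd_trans ?_ hdvd
    rw [e, Nat.add_sub_cancel, mul_comm]
    apply Nat.mul_dvd_mul_left
    rw [hL]
    exact Finset.prod_dvd_prod_of_subset _ _ _ hT
  obtain ⟨p0, hp0⟩ := hSne
  have hp0n : p0 ∣ n := by rw [hn]; exact Finset.dvd_prod_of_mem _ hp0
  have hzn : z < n := lt_of_lt_of_le (hPprop p0 (hSP hp0)).2.1 (Nat.le_of_dvd hn1 hp0n)
  refine ⟨n, hzn, ?_, ?_⟩
  · intro hnp
    have h1 : p0 = n := (Nat.prime_dvd_prime_iff_eq (hSprime p0 hp0) hnp).1 hp0n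
    obtain ⟨-, -, T, hT, hT2, e⟩ := hPprop p0 (hSP hp0)
    have h2 : L ∣ (∏ q ∈ T, q) * k := by
      have : n - 1 = (∏ q ∈ T, q) * k := by rw [← h1, e, Nat.add_sub_cancel]
      rw [← this]
      exact (Dvd.intro_left k rfl).trans hdvd
    have h3 : L ∣ ∏ q ∈ T, q := (Nat.Coprime.dvd_of_dvd_mul_right hcop.symm h2)
    apply hT2
    apply Finset.Subset.antisymm hT
    intro q hq
    have h4 : q ∣ ∏ q ∈ T, q := (Finset.dvd_prod_of_mem _ hq).trans (hL ▸ h3)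
    rw [(hQ q hq).prime.dvd_finset_prod_iff] at h4
    obtain ⟨q', hq', h5⟩ := h4
    rw [(Nat.prime_dvd_prime_iff_eq (hQ q hq) (hQ q' (hT hq'))).1 h5]
    exact hq'
  · have h1 := count S hSprime z hz (fun p hp => (hPprop p (hSP hp)).2.1) n hn hKor
    refine le_trans ?_ h1
    apply mul_le_mul_of_nonneg_left _ (Nat.cast_nonneg n)
    have h2 : (S.card : ℝ) ≤ (Λ * B + 1 : ℕ) := by
      rw [← hPcard]
      exact_mod_cast card_le_card hSP
    have hz' : (0 : ℝ) < z := by exact_mod_cast hz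
    have h3 : (S.card : ℝ) / z ≤ (Λ * B + 1 : ℕ) / z := by gcongr
    linarith

end Pool.Agent.U843.AGP
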