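import Mathlib
import Pool.Agent.U843.AGP.St2

set_option autoImplicit false

/-!
Assembly: the limsup over composite `n` of the proportion of residues that satisfy Fermat's congruence is one.
-/

namespace Pool.Agent.U843.AGP

open Finset

theorem prod_inj (Q : Finset ℕ) (hQ : ∀ q ∈ Q, q.Prime) (u : ℕ) :
    Set.InjOn (fun T : Finset ℕ => ∏ q ∈ T, q) (Q.powersetCard u : Set (Finset ℕ)) := by
  intro T hT T' hT' h
  rw [mem_coe, mem_powersetCard] at hT hT'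
  simp only at h
  have h1 : (∏ q ∈ T, q).primeFactors = T := Nat.primeFactors_prod fun q hq => hQ q (hT.1 hq)
  have h2 : (∏ q ∈ T', q).primeFactors = T' := Nat.primeFactors_prod fun q hq => hQ q (hT'.1 hq)
  rw [← h1, ← h2, h]

theorem growth (E c : ℝ) (hc : 0 < c) :
    ∃ a0 : ℕ, ∀ a : ℕ, a0 ≤ a → E * (a : ℝ) ^ 5 ≤ c * 4 ^ a := by
  have h1 := tendsto_pow_const_div_const_pow_of_one_lt 5 (r := (4 : ℝ)) (by norm_num)
  have h2 : Filter.Tendsto (fun n : ℕ => E * ((n : ℝ) ^ 5 / 4 ^ n)) Filter.atTop (nhds (E * 0)) :=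
    h1.const_mul E
  rw [mul_zero] at h2
  have h3 := (h2.eventually_le_const hc)
  rw [Filter.eventually_atTop] at h3
  obtain ⟨a0, ha0⟩ := h3
  refine ⟨a0, fun a ha => ?_⟩
  have h4 := ha0 a ha
  have h5 : (0 : ℝ) < 4 ^ a := by positivity
  rw [← mul_div_assoc, div_le_iff₀ h5] at h4
  exact h4

theorem stage2 (K z0 : ℕ) (c : ℝ) (hK : 1 ≤ K) (hc : 0 < c) (h : ∀ z, z0 ≤ z → PageAt K c z) :
    ∃ a0 : ℕ, ∀ a : ℕ, a0 ≤ a → ∃ n : ℕ, a < n ∧ ¬ n.Prime ∧ (n : ℝ) * (1 - (1 / 2) ^ a) ≤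
      (((range n).filter (fun a => a ^ (n - 1) ≡ 1 [MOD n])).card : ℝ) := by
  obtain ⟨C', hC'⟩ : ∃ C', C' = 57 * (K + 1) := ⟨_, rfl⟩
  obtain ⟨a1, ha1, hst⟩ := stage1 K z0 c hK hc h (2 * C' + 1)
  obtain ⟨a2, ha2⟩ := growth (824964 * (C' : ℝ) ^ 3 * (K : ℝ) ^ 3) c hc
  refine ⟨max (max a1 a2) z0, ?_⟩
  intro a ha
  simp only [max_le_iff] at ha
  obtain ⟨⟨ha1', ha2'⟩, haz⟩ := ha
  have hapos : 1 ≤ a := ha1.trans ha1'
  obtain ⟨Λ, Q, hΛ0, hΛle, hQ, hQcard⟩ := hst a ha1'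
  have hgr := ha2 a ha2'
  obtain ⟨Y0, hY0⟩ : ∃ Y0, Y0 = 105 ^ (16 * a) := ⟨_, rfl⟩
  rw [← hY0] at hΛle hQ
  obtain ⟨u, hu⟩ : ∃ u, u = C' * a := ⟨_, rfl⟩
  obtain ⟨Y, hY⟩ : ∃ Y, Y = Y0 ^ K := ⟨_, rfl⟩
  obtain ⟨z, hz⟩ : ∃ z, z = Y ^ (16 * u) := ⟨_, rfl⟩
  have hC'1 : 1 ≤ C' := by omega
  have hu1 : 1 ≤ u := by rw [hu]; exact Nat.mul_pos hC'1 hapos
  have hau : a ≤ u := by rw [hu]; exact Nat.le_mul_of_pos_left a hC'1
  have hY0big : 105 ≤ Y0 := by
    rw [hY0]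
    calc 105 = 105 ^ 1 := by norm_num
      _ ≤ 105 ^ (16 * a) := Nat.pow_le_pow_right (by norm_num) (by omega)
  have hYY0 : Y0 ≤ Y := by
    rw [hY]
    calc Y0 = Y0 ^ 1 := (pow_one _).symm
      _ ≤ Y0 ^ K := Nat.pow_le_pow_right (by omega) hK
  have hY105 : 105 ≤ Y := hY0big.trans hYY0
  have hz8 : 8 ^ u ≤ z := by
    rw [hz]
    calc 8 ^ u ≤ 105 ^ u := Nat.pow_le_pow_left (by norm_num) u
      _ ≤ Y ^ u := Nat.pow_le_pow_left hY105 u
      _ ≤ Y ^ (16 * u) := Nat.pow_le_pow_right (by omega) (by omega)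
  have hYz : Y ≤ z := by
    rw [hz]
    calc Y = Y ^ 1 := (pow_one _).symm
      _ ≤ Y ^ (16 * u) := Nat.pow_le_pow_right (by omega) (by omega)
  have haz2 : u < z := lt_of_lt_of_le (Nat.lt_pow_self (by norm_num)) hz8
  have hz0 : z0 ≤ z := by omega
  obtain ⟨q₁, hq₁, hpage⟩ := h z hz0
  obtain ⟨s, hs⟩ : ∃ s, s = q₁.minFac := ⟨_, rfl⟩
  have hsp : s.Prime := by rw [hs]; exact Nat.minFac_prime (by omega)
  have hsq : s ∣ q₁ := by rw [hs]; exact Nat.minFac_dvd q₁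
  -- choose the set
  have hcard : 2 * u ≤ (Q.erase s).card := by
    have h1 := Finset.pred_card_le_card_erase (s := Q) (a := s)
    have h2 : (2 * C' + 1) * a = 2 * u + a := by rw [hu]; ring
    omega
  obtain ⟨R, hRsub, hRcard⟩ := Finset.exists_subset_card_eq hcard
  have hRQ : ∀ q ∈ R, q ∈ Q := fun q hq => mem_of_mem_erase (hRsub hq)
  have hRs : ∀ q ∈ R, q ≠ s := fun q hq => ne_of_mem_erase (hRsub hq)
  have hRp : ∀ q ∈ R, q.Prime := fun q hq => (hQ q (hRQ q hq)).1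
  have hRY : ∀ q ∈ R, q ≤ Y := fun q hq => by rw [hY]; exact (hQ q (hRQ q hq)).2.2.1
  obtain ⟨D, hD⟩ : ∃ D, D = (R.powersetCard u).image (fun T : Finset ℕ => ∏ q ∈ T, q) := ⟨_, rfl⟩
  have hDcard : D.card = u.centralBinom := by
    rw [hD, card_image_of_injOn (prod_inj R hRp u), card_powersetCard, hRcard]
    rfl
  have hDne : D.Nonempty := by
    rw [← card_pos, hDcard]; exact Nat.centralBinom_pos u
  have hprodle : ∀ T : Finset ℕ, T ⊆ R → ∏ q ∈ T, q ≤ Y ^ T.card := by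
    intro T hT
    exact Finset.prod_le_pow_card _ _ _ fun q hq => hRY q (hT hq)
  have hDp : ∀ d ∈ D, ∃ T ⊆ R, T.card = u ∧ d = ∏ q ∈ T, q := by
    intro d hd
    rw [hD, mem_image] at hd
    obtain ⟨T, hT, rfl⟩ := hd
    rw [mem_powersetCard] at hT
    exact ⟨T, hT.1, hT.2, rfl⟩
  have hD1 : ∀ d ∈ D, 0 < d ∧ d ^ 16 ≤ z ∧ ¬ q₁ ∣ d := by
    intro d hd
    obtain ⟨T, hT, hTu, rfl⟩ := hDp d hd
    refine ⟨Finset.prod_pos fun q hq => (hRp q (hT hq)).pos, ?_, ?_⟩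
    · have h1 := hprodle T hT
      rw [hTu] at h1
      calc (∏ q ∈ T, q) ^ 16 ≤ (Y ^ u) ^ 16 := Nat.pow_le_pow_left h1 16
        _ = z := by rw [hz, ← pow_mul, mul_comm]
    · intro hdiv
      have h1 : s ∣ ∏ q ∈ T, q := hsq.trans hdiv
      rw [hsp.prime.dvd_finsetProd_iff] at h1
      obtain ⟨q, hq, h2⟩ := h1
      have h3 := (Nat.prime_dvd_prime_iff_eq hsp (hRp q (hT hq))).1 h2
      exact hRs q (hT hq) h3.symm
  -- the size of `log z`
  have hY0r : (0 : ℝ) < Y0 := by exact_mod_cast (by omega : 0 < Y0)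
  have hlogY0 : Real.log Y0 ≤ 80 * a := by
    rw [hY0]
    push_cast
    rw [Real.log_pow]
    push_cast
    have := log105
    have ha' : (0 : ℝ) ≤ a := Nat.cast_nonneg a
    nlinarith
  have hlogY : Real.log Y ≤ K * (80 * a) := by
    rw [hY]
    push_cast
    rw [Real.log_pow]
    exact mul_le_mul_of_nonneg_left hlogY0 (Nat.cast_nonneg K)
  have hlogz : Real.log z ≤ 1280 * u * K * a := by
    rw [hz]
    push_cast
    rw [Real.log_pow]
    push_cast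
    have hu' : (0 : ℝ) ≤ u := Nat.cast_nonneg u
    calc 16 * (u : ℝ) * Real.log Y ≤ 16 * (u : ℝ) * (K * (80 * a)) :=
          mul_le_mul_of_nonneg_left hlogY (by positivity)
      _ = _ := by ring
  have hur : (1 : ℝ) ≤ u := by exact_mod_cast hu1
  have hKr : (1 : ℝ) ≤ K := by exact_mod_cast hK
  have har : (1 : ℝ) ≤ a := by exact_mod_cast hapos
  obtain ⟨M, hM⟩ : ∃ M : ℝ, M = 1281 * u * K ^ 2 * a := ⟨_, rfl⟩
  have hMle : 1 + K * Real.log z ≤ M := by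
    have h1 : (1 : ℝ) ≤ u * K ^ 2 * a := by
      have : (1 : ℝ) ≤ u * K ^ 2 := one_le_mul_of_one_le_of_one_le hur (one_le_pow₀ hKr)
      exact one_le_mul_of_one_le_of_one_le this har
    have h2 : K * Real.log z ≤ K * (1280 * u * K * a) :=
      mul_le_mul_of_nonneg_left hlogz (by positivity)
    rw [hM]
    nlinarith
  have hMpos : 0 < M := by rw [hM]; positivity
  have hlogz0 : 0 ≤ Real.log z := Real.log_natCast_nonneg z
  -- the weights
  have hWs1 : (∑ w ∈ R, (1 : ℝ) / w) ≤ 2 * u / Y0 := by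
    calc (∑ w ∈ R, (1 : ℝ) / w) ≤ ∑ _w ∈ R, (1 : ℝ) / Y0 := by
          apply sum_le_sum
          intro w hw
          apply one_div_le_one_div_of_le hY0r
          exact_mod_cast (hQ w (hRQ w hw)).2.1.le
      _ = 2 * u / Y0 := by
          rw [sum_const, hRcard, nsmul_eq_mul]
          push_cast
          ring
  have h4Y0 : (4 : ℝ) ^ a ≤ Y0 := by
    rw [hY0]
    push_cast
    calc (4 : ℝ) ^ a ≤ 105 ^ a := pow_le_pow_left₀ (by norm_num) (by norm_num) a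
      _ ≤ 105 ^ (16 * a) := pow_le_pow_right₀ (by norm_num) (by omega)
  have hur2 : (u : ℝ) = C' * a := by rw [hu]; push_cast; ring
  have hgr2 : 824964 * (u : ℝ) ^ 3 * K ^ 3 * a ^ 2 ≤ c * 4 ^ a := by
    refine le_trans (le_of_eq ?_) hgr
    rw [hur2]; ring
  have hWs : (∑ w ∈ R, (1 : ℝ) / w) * (1 + K * Real.log z) ≤ c / 2 := by
    have h1 : (∑ w ∈ R, (1 : ℝ) / w) * (1 + K * Real.log z) ≤ 2 * u / Y0 * M :=
      mul_le_mul hWs1 hMle (by positivity) (by positivity)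
    refine h1.trans ?_
    rw [div_mul_eq_mul_div, div_le_iff₀ hY0r]
    have h2 : c / 2 * (4 : ℝ) ^ a ≤ c / 2 * Y0 := mul_le_mul_of_nonneg_left h4Y0 (by positivity)
    refine le_trans ?_ h2
    have h3 : 2 * (u : ℝ) * M ≤ 1 / 2 * (824964 * (u : ℝ) ^ 3 * K ^ 3 * a ^ 2) := by
      rw [hM]
      have e1 : (2 * (u : ℝ) * (1281 * u * K ^ 2 * a)) = 2562 * (u ^ 2 * K ^ 2 * a) := by ring
      have e2 : (1 / 2 * (824964 * (u : ℝ) ^ 3 * K ^ 3 * a ^ 2)) =
          412482 * (u ^ 2 * K ^ 2 * a) * (u * K * a) := by ring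
      rw [e1, e2]
      have h5 : (1 : ℝ) ≤ u * K * a :=
        one_le_mul_of_one_le_of_one_le (one_le_mul_of_one_le_of_one_le hur hKr) har
      have h6 : (0 : ℝ) ≤ u ^ 2 * K ^ 2 * a := by positivity
      nlinarith
    linarith
  obtain ⟨k, hk1, hkz, hkR, hNge⟩ := pigeon z K q₁ c (by omega) hc hpage D R hDne hD1
    (fun w hw => (hRp w hw).pos) hWs
  obtain ⟨N, hN⟩ : ∃ N : ℕ, N = #(D.filter (fun d => (d * k + 1).Prime ∧ z < d * k + 1 ∧
    d * k + 1 ≤ z ^ K)) := ⟨_, rfl⟩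
  rw [← hN] at hNge
  have hNlow : Λ * (160 * u * a * K) + 1 ≤ N := by
    have hNr : (0 : ℝ) ≤ N := Nat.cast_nonneg N
    have h1 : c / 2 * D.card ≤ M * N :=
      hNge.trans (mul_le_mul_of_nonneg_right hMle hNr)
    have h2 : (4 : ℝ) ^ u ≤ 2 * u * D.card := by
      rw [hDcard]
      exact_mod_cast Nat.four_pow_le_two_mul_self_mul_centralBinom u hu1
    have h3 : (Λ : ℝ) * 4 ^ a ≤ 4 ^ u := by
      have e1 : (Λ : ℝ) ≤ ((4 : ℝ) ^ (56 * a)) ^ (K + 1) := by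
        calc (Λ : ℝ) ≤ (Y0 : ℝ) ^ (K + 1) := by exact_mod_cast hΛle
          _ ≤ ((4 : ℝ) ^ (56 * a)) ^ (K + 1) := by
            apply pow_le_pow_left₀ (by positivity)
            rw [hY0]
            push_cast
            rw [pow_mul, pow_mul]
            apply pow_le_pow_left₀ (by positivity)
            norm_num
      calc (Λ : ℝ) * 4 ^ a ≤ ((4 : ℝ) ^ (56 * a)) ^ (K + 1) * (4 ^ a) ^ (K + 1) := by
            apply mul_le_mul e1 _ (by positivity) (by positivity)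
            exact le_self_pow₀ (one_le_pow₀ (by norm_num)) (by omega)
        _ = 4 ^ u := by
            rw [← mul_pow, ← pow_add, ← pow_mul, hu, hC']
            congr 1
            ring
    have h4 : c * 4 ^ a * Λ ≤ 4 * u * M * N := by
      have h5 : c * ((Λ : ℝ) * 4 ^ a) ≤ c * (2 * u * D.card) :=
        mul_le_mul_of_nonneg_left (h3.trans h2) hc.le
      have h6 : (4 * (u : ℝ)) * (c / 2 * D.card) ≤ (4 * u) * (M * N) :=
        mul_le_mul_of_nonneg_left h1 (by positivity)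
      linarith
    have h5 : (824964 * (u : ℝ) ^ 3 * K ^ 3 * a ^ 2) * Λ ≤ 4 * u * M * N :=
      (mul_le_mul_of_nonneg_right hgr2 (Nat.cast_nonneg Λ)).trans h4
    have h6 : (824964 * (u : ℝ) ^ 3 * K ^ 3 * a ^ 2) * Λ = (4 * u * M) * (161 * u * K * a * Λ) := by
      rw [hM]; ring
    rw [h6] at h5
    have h7 : 161 * (u : ℝ) * K * a * Λ ≤ N := le_of_mul_le_mul_left h5 (by positivity)
    have h8 : 161 * u * K * a * Λ ≤ N := by exact_mod_cast h7
    have h9 : 1 ≤ u * K * a * Λ := by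
      have : 0 < u * K * a * Λ := by positivity
      omega
    have e : 161 * u * K * a * Λ = Λ * (160 * u * a * K) + u * K * a * Λ := by ring
    omega
  have hB : (∏ q ∈ R, q : ℕ) ≤ Real.exp (160 * u * a * K : ℕ) := by
    have h1 := hprodle R (Subset.refl R)
    rw [hRcard] at h1
    have h2 : ((∏ q ∈ R, q : ℕ) : ℝ) ≤ (Y : ℝ) ^ (2 * u) := by exact_mod_cast h1
    refine h2.trans ?_
    have hYr : (0 : ℝ) < Y := by exact_mod_cast (by omega : 0 < Y)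
    have h3 : (Y : ℝ) ^ (2 * u) = Real.exp (2 * u * Real.log Y) := by
      rw [← Real.exp_log hYr, ← Real.exp_nat_mul, Real.log_exp]
      push_cast
      ring_nf
    rw [h3, Real.exp_le_exp]
    push_cast
    calc 2 * (u : ℝ) * Real.log Y ≤ 2 * (u : ℝ) * (K * (80 * a)) :=
          mul_le_mul_of_nonneg_left hlogY (by positivity)
      _ = _ := by ring
  obtain ⟨n, hzn, hnp, hcount⟩ := final K R hRp Λ k z hΛ0 (fun q hq => (hQ q (hRQ q hq)).2.2.2)
    (by omega) (fun q hq => (hRY q hq).trans hYz) D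
    (fun d hd => by
      obtain ⟨T, hT, hTu, hd'⟩ := hDp d hd
      refine ⟨T, hT, ?_, hd'⟩
      rintro rfl
      omega) hk1 hkR (160 * u * a * K) hB (by rw [← hN]; exact hNlow)
  refine ⟨n, by omega, hnp, le_trans ?_ hcount⟩
  apply mul_le_mul_of_nonneg_left _ (Nat.cast_nonneg n)
  have hzr : (0 : ℝ) < z := by exact_mod_cast (by omega : 0 < z)
  have h1 : ((Λ * (160 * u * a * K) + 1 : ℕ) : ℝ) / z ≤ (1 / 2) ^ a := by
    rw [div_le_iff₀ hzr]
    have h2 : N ≤ 4 ^ u := by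
      calc N ≤ D.card := by rw [hN]; exact card_filter_le _ _
        _ ≤ (R.powersetCard u).card := by rw [hD]; exact card_image_le
        _ = (2 * u).choose u := by rw [card_powersetCard, hRcard]
        _ ≤ 2 ^ (2 * u) := Nat.choose_le_two_pow _ _
        _ = 4 ^ u := by rw [pow_mul]; norm_num
    have h3 : ((Λ * (160 * u * a * K) + 1 : ℕ) : ℝ) ≤ 4 ^ u := by exact_mod_cast hNlow.trans h2
    have h4 : (8 : ℝ) ^ u ≤ z := by exact_mod_cast hz8
    calc ((Λ * (160 * u * a * K) + 1 : ℕ) : ℝ) ≤ 4 ^ u := h3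
      _ = (1 / 2) ^ u * 8 ^ u := by rw [← mul_pow]; norm_num
      _ ≤ (1 / 2) ^ a * z := by
          apply mul_le_mul _ h4 (by positivity) (by positivity)
          exact pow_le_pow_of_le_one (by norm_num) (by norm_num) hau
  linarith

theorem limsup_one (K z0 : ℕ) (c : ℝ) (hK : 1 ≤ K) (hc : 0 < c) (h : ∀ z, z0 ≤ z → PageAt K c z) :
    ∀ ε : ℝ, 0 < ε → ∀ N : ℕ, ∃ n : ℕ, N < n ∧ 1 < n ∧ ¬ Nat.Prime n ∧
      (1 - ε) * (n : ℝ) <
        (((Finset.range n).filter (fun a => a ^ (n - 1) ≡ 1 [MOD n])).card : ℝ) := by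
  intro ε hε N
  obtain ⟨a0, ha0⟩ := stage2 K z0 c hK hc h
  obtain ⟨a1, ha1⟩ := exists_pow_lt_of_lt_one hε (by norm_num : (1 / 2 : ℝ) < 1)
  obtain ⟨n, hn, hnp, hcount⟩ := ha0 (max (max a0 a1) (max N 1)) (le_trans (le_max_left _ _) (le_max_left _ _))
  have hN : N ≤ max (max a0 a1) (max N 1) := le_trans (le_max_left _ _) (le_max_right _ _)
  have h1 : 1 ≤ max (max a0 a1) (max N 1) := le_trans (le_max_right _ _) (le_max_right _ _)
  refine ⟨n, by omega, by omega, hnp, lt_of_lt_of_le ?_ hcount⟩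
  rw [mul_comm]
  have hn0 : (0 : ℝ) < n := by exact_mod_cast (by omega : 0 < n)
  apply mul_lt_mul_of_pos_left _ hn0
  have h2 : (1 / 2 : ℝ) ^ (max (max a0 a1) (max N 1)) ≤ (1 / 2) ^ a1 :=
    pow_le_pow_of_le_one (by norm_num) (by norm_num) (le_trans (le_max_right _ _) (le_max_left _ _))
  linarith

end Pool.Agent.U843.AGP
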